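import Pool.Agent.helper47.SPI.Spec

set_option autoImplicit false

namespace Pool.Agent.SPI

open Finset Pool.Agent.helper85.PG

theorem PCS : PCS_stmt := by
  classical
  intro p _ A B F G P Q χ Y hA hB hY α β hα hβ
  choose! f hf1 hf2 using hA
  choose! g hg1 hg2 using hB
  -- one piece
  have piece : ∀ u v : ZMod p, ‖∑ a ∈ A with f a = u, ∑ b ∈ B with g b = v, α a * β b * χ (a + b)‖ ≤ Y := by
    intro u v
    have h1 := hY ((A.filter (fun a => f a = u)).image (fun a => a - u))
      ((B.filter (fun b => g b = v)).image (fun b => b - v)) (u + v) (fun x => α (x + u)) (fun y => β (y + v))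
      (by
        intro x hx
        obtain ⟨a, ha, rfl⟩ := mem_image.mp hx
        obtain ⟨ha1, ha2⟩ := mem_filter.mp ha
        have := hf2 a ha1
        rw [ha2] at this
        exact this)
      (by
        intro y hy
        obtain ⟨b, hb, rfl⟩ := mem_image.mp hy
        obtain ⟨hb1, hb2⟩ := mem_filter.mp hb
        have := hg2 b hb1
        rw [hb2] at this
        exact this)
      (le_trans card_image_le (card_filter_le _ _))
      (le_trans card_image_le (card_filter_le _ _))
      (fun a => hα _) (fun b => hβ _)
    have h2 : (∑ a ∈ (A.filter (fun a => f a = u)).image (fun a => a - u),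
        ∑ b ∈ (B.filter (fun b => g b = v)).image (fun b => b - v),
          (fun x => α (x + u)) a * (fun y => β (y + v)) b * χ (a + b + (u + v)))
        = ∑ a ∈ A with f a = u, ∑ b ∈ B with g b = v, α a * β b * χ (a + b) := by
      rw [Finset.sum_image (by intro x _ y _ h; exact sub_left_injective h)]
      refine Finset.sum_congr rfl ?_
      intro a _
      rw [Finset.sum_image (by intro x _ y _ h; exact sub_left_injective h)]
      refine Finset.sum_congr rfl ?_
      intro b _
      have e1 : a - u + u = a := by ring
      have e2 : b - v + v = b := by ring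
      have e3 : a - u + (b - v) + (u + v) = a + b := by ring
      simp only [e1, e2, e3]
    rw [h2] at h1
    exact h1
  have hsum : ∑ a ∈ A, ∑ b ∈ B, α a * β b * χ (a + b)
      = ∑ u ∈ F, ∑ v ∈ G, ∑ a ∈ A with f a = u, ∑ b ∈ B with g b = v, α a * β b * χ (a + b) := by
    rw [← Finset.sum_fiberwise_of_maps_to hf1]
    refine Finset.sum_congr rfl ?_
    intro u _
    refine Eq.trans ?_ Finset.sum_comm
    refine Finset.sum_congr rfl ?_
    intro a _
    rw [Finset.sum_fiberwise_of_maps_to hg1]
  rw [hsum]
  calc ‖∑ u ∈ F, ∑ v ∈ G, ∑ a ∈ A with f a = u, ∑ b ∈ B with g b = v, α a * β b * χ (a + b)‖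
      ≤ ∑ u ∈ F, ∑ v ∈ G, Y := by
        refine (norm_sum_le _ _).trans (Finset.sum_le_sum ?_)
        intro u _
        refine (norm_sum_le _ _).trans (Finset.sum_le_sum ?_)
        intro v _
        exact piece u v
    _ = F.card * G.card * Y := by
        rw [sum_const, sum_const, nsmul_eq_mul, nsmul_eq_mul]
        ring

end Pool.Agent.SPI
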